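import Pool.Agent.Helper46.C2.St

set_option autoImplicit false

namespace Pool.Agent.Helper39.C2

open Pool.Agent.Helper46.C2 Polynomial

theorem hCH (h1 : StFIB) : StCH := by
  intro k L _ x hR ev hev n q A₀ S f hS r hsum
  classical
  haveI hfin : Finite (Polynomial.degreeLT (ZMod 2) n) :=
    Finite.of_equiv _ (Polynomial.degreeLTEquiv (ZMod 2) n).toEquiv.symm
  letI : Fintype (Polynomial.degreeLT (ZMod 2) n) := Fintype.ofFinite _
  have hcard : Fintype.card (Polynomial.degreeLT (ZMod 2) n) = 2 ^ n := by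
    rw [Fintype.card_congr (Polynomial.degreeLTEquiv (ZMod 2) n).toEquiv]
    simp [ZMod.card]
  have hB : ∀ I ∈ S, ∀ j : Fin 3,
      (Finset.univ.filter (fun g : Polynomial.degreeLT (ZMod 2) n =>
        ev (A₀ + q * (g : (ZMod 2)[X])) - r I j ∈ I)).card ≤ 2 ^ (n - f I) := by
    intro I hI j
    obtain ⟨hm, hcI, hq⟩ := hS I hI
    obtain ⟨c, i, hi, e⟩ := hm.exists_inv hq
    have hle := h1 k L x hR ev hev I (f I) hm hcI n (c * (r I j - ev A₀))
    rw [Nat.card_eq_fintype_card, Fintype.card_subtype] at hle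
    refine le_trans (Finset.card_le_card ?_) hle
    intro g hg
    simp only [Finset.mem_filter, Finset.mem_univ, true_and] at hg ⊢
    have e2 : ev (g : (ZMod 2)[X]) - c * (r I j - ev A₀) =
        c * (ev (A₀ + q * (g : (ZMod 2)[X])) - r I j) + ev (g : (ZMod 2)[X]) * i := by
      rw [map_add, map_mul]
      linear_combination (-(ev (g : (ZMod 2)[X]))) * e
    rw [e2]
    exact I.add_mem (I.mul_mem_left _ hg) (I.mul_mem_left _ hi)
  by_contra hcon
  push Not at hcon
  have hsub : (Finset.univ : Finset (Polynomial.degreeLT (ZMod 2) n)) ⊆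
      S.biUnion (fun I => Finset.univ.biUnion (fun j : Fin 3 =>
        Finset.univ.filter (fun g : Polynomial.degreeLT (ZMod 2) n =>
          ev (A₀ + q * (g : (ZMod 2)[X])) - r I j ∈ I))) := by
    intro g _
    obtain ⟨I, hI, j, hj⟩ := hcon (g : (ZMod 2)[X]) (Polynomial.mem_degreeLT.1 g.2)
    simp only [Finset.mem_biUnion, Finset.mem_filter, Finset.mem_univ, true_and]
    exact ⟨I, hI, j, hj⟩
  have h3 := Finset.card_le_card hsub
  rw [Finset.card_univ, hcard] at h3
  have h4 : (S.biUnion (fun I => Finset.univ.biUnion (fun j : Fin 3 =>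
        Finset.univ.filter (fun g : Polynomial.degreeLT (ZMod 2) n =>
          ev (A₀ + q * (g : (ZMod 2)[X])) - r I j ∈ I)))).card ≤
      ∑ I ∈ S, 3 * 2 ^ (n - f I) := by
    refine le_trans Finset.card_biUnion_le (Finset.sum_le_sum ?_)
    intro I hI
    refine le_trans Finset.card_biUnion_le ?_
    refine le_trans (Finset.sum_le_sum (fun j _ => hB I hI j)) ?_
    simp
  omega

end Pool.Agent.Helper39.C2
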